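import Pool.Agent.Helper25.FN.Spec

set_option autoImplicit false

namespace Pool.Agent.Helper96.FN.EXPA

open MeasureTheory
open scoped ContDiff
open Pool.Agent.Helper25.FN

lemma wl_prod {n : ℕ} (α : Fin n →₀ ℕ) (f : Fin n → ℂ) :
    ((wl α).map f).prod = ∏ j, f j ^ α j := by
  unfold wl
  rw [← Multiset.prod_coe, ← Multiset.map_coe, Multiset.coe_toList,
    Finset.prod_multiset_map_count]
  simp only [Finsupp.count_toMultiset]
  refine Finset.prod_subset (Finset.subset_univ _) fun j _ hj => ?_
  have : α j = 0 := by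
    rw [Multiset.mem_toFinset, Finsupp.mem_toMultiset, Finsupp.notMem_support_iff] at hj
    exact hj
  rw [this, pow_zero]

lemma sym_zero {n : ℕ} (k : ℤ) : Sym k (fun _ : V n => (0 : ℂ)) := by
  refine ⟨contDiff_const, fun i => ⟨0, fun z => ?_⟩⟩
  have : iteratedFDeriv ℝ i (fun _ : V n => (0 : ℂ)) z = 0 := by
    have h := iteratedFDeriv_fun_zero (𝕜 := ℝ) (E := V n) (F := ℂ) (n := i)
    rw [show (fun _ : V n => (0 : ℂ)) = (fun _ => 0) from rfl, h]
    rfl
  rw [this]
  simp

theorem main (hWD : S_WD) (hS : S_SYM1) : S_EXPA := by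
  intro n P Φ hΦ hΦ1
  obtain ⟨hmul, hadd, hle, hconst, hz, hwd⟩ := hS n
  have hgr : ∀ j, Sym 0 (fun z => gr Φ z j) := by
    intro j
    have h1 := hmul 0 (1 - 1) _ _ (hconst 2) (hwd 1 _ j hΦ1)
    have e : (0 : ℤ) + (1 - 1) = 0 := by norm_num
    rw [e] at h1
    exact h1
  have hdiff : ∀ (k : ℤ) (f : V n → ℂ), Sym k f → Differentiable ℝ f := fun k f hf =>
    hf.1.differentiable (by simp)
  have key : ∀ l : List (Fin n), ∃ r : V n → ℂ, Sym (-1) r ∧
      Sym 0 (fun z => (l.map (gr Φ z)).prod) ∧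
      ∀ z, (-1) ^ l.length * dl l (wc Φ) z = ((l.map (gr Φ z)).prod + r z) * wc Φ z := by
    intro l
    induction l with
    | nil =>
      refine ⟨fun _ => 0, sym_zero _, ?_, fun z => ?_⟩
      · simpa using hconst 1
      · simp [dl]
    | cons j l ih =>
      obtain ⟨r, hr, hg, heq⟩ := ih
      -- the function `F = g + r`
      have hF : Sym 0 (fun z => (l.map (gr Φ z)).prod + r z) :=
        hadd 0 _ _ hg (hle (-1) 0 r (by norm_num) hr)
      have hF1 := hwd 0 _ j hF
      have e1 : (0 : ℤ) - 1 = -1 := by norm_num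
      rw [e1] at hF1
      have hrg := hmul (-1) 0 _ _ hr (hgr j)
      have e2 : (-1 : ℤ) + 0 = -1 := by norm_num
      rw [e2] at hrg
      have hm := hmul 0 (-1) _ _ (hconst (-1)) hF1
      have e3 : (0 : ℤ) + -1 = -1 := by norm_num
      rw [e3] at hm
      have hsum := hadd (-1) _ _ hrg hm
      refine ⟨_, hsum, ?_, fun z => ?_⟩
      · have h := hmul 0 0 _ _ (hgr j) hg
        rw [add_zero] at h
        simpa using h
      · have hfun : dl l (wc Φ) = fun y => (-1 : ℂ) ^ l.length *
            (((l.map (gr Φ y)).prod + r y) * wc Φ y) := by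
          funext y
          rw [← heq y, ← mul_assoc, ← pow_add, ← two_mul, pow_mul]
          simp
        have hwcd : Differentiable ℝ (wc Φ) :=
          ((hWD n j).2.2.2.1 Φ hΦ).1.differentiable (by simp)
        have hwc := ((hWD n j).2.2.2.1 Φ hΦ).2 z
        have h1 := (hWD n j).2.1 ((-1 : ℂ) ^ l.length)
          (fun y => ((l.map (gr Φ y)).prod + r y) * wc Φ y) ((hdiff 0 _ hF).mul hwcd) z
        have h2 := ((hWD n j).1 _ _ (hdiff 0 _ hF) hwcd z).2
        have h3 : dl (j :: l) (wc Φ) z = wd j (dl l (wc Φ)) z := rfl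
        rw [h3, hfun, h1, h2, hwc]
        simp only [List.length_cons, List.map_cons, List.prod_cons]
        have h4 : ((-1 : ℂ) ^ (l.length + 1)) * (-1) ^ l.length = -1 := by
          rw [pow_succ, mul_comm ((-1 : ℂ) ^ l.length) (-1), mul_assoc, ← pow_add, ← two_mul,
            pow_mul]
          simp
        linear_combination
          (wd j (fun y => (List.map (gr Φ y) l).prod + r y) z * wc Φ z +
            ((List.map (gr Φ z) l).prod + r z) * (-gr Φ z j * wc Φ z)) * h4
  choose r hr hg heq using key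
  have hfin : ∀ (k : ℤ) (S : Finset (Fin n →₀ ℕ)) (f : (Fin n →₀ ℕ) → V n → ℂ),
      (∀ α, Sym k (f α)) → Sym k (fun z => ∑ α ∈ S, f α z) := by
    intro k S f hf
    classical
    induction S using Finset.induction_on with
    | empty => simpa using sym_zero k
    | insert a s ha ih =>
      have := hadd k _ _ (hf a) ih
      simpa [Finset.sum_insert ha] using this
  have hc : ∀ (k : ℤ) (c : ℂ) (f : V n → ℂ), Sym k f → Sym k (fun z => c * f z) := by
    intro k c f hf
    have := hmul 0 k _ _ (hconst c) hf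
    rwa [zero_add] at this
  refine ⟨fun z => ∑ α ∈ P.support, P.coeff α * (((wl α).map (gr Φ z)).prod + r (wl α) z),
    ?_, fun z => ?_, ?_⟩
  · exact hfin 0 P.support _ fun α => hc 0 _ _
      (hadd 0 _ _ (hg (wl α)) (hle (-1) 0 _ (by norm_num) (hr (wl α))))
  · unfold PDm
    rw [Finset.sum_mul]
    refine Finset.sum_congr rfl fun α _ => ?_
    have := heq (wl α) z
    linear_combination P.coeff α * this
  · have e : (fun z => (∑ α ∈ P.support, P.coeff α * (((wl α).map (gr Φ z)).prod + r (wl α) z)) -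
        MvPolynomial.eval (gr Φ z) P) = fun z => ∑ α ∈ P.support, P.coeff α * r (wl α) z := by
      funext z
      rw [MvPolynomial.eval_eq', ← Finset.sum_sub_distrib]
      refine Finset.sum_congr rfl fun α _ => ?_
      rw [wl_prod]; ring
    rw [e]
    exact hfin (-1) P.support _ fun α => hc (-1) _ _ (hr (wl α))

end Pool.Agent.Helper96.FN.EXPA
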